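import Mathlib

/-!
# Gale's Nim with four heaps: additive periodicity for bounded pairs of heaps

For every `m` there are a period `p` and a threshold `N` with an explicit bound such that
for all heap sizes `1 ≤ a, b ≤ m` the `P`-positions `(a, b, c, d)` are exactly the
positions `(a, b, c, f c)` for one function `f`, and `f (c + p) = f c + p` for all `c ≥ N`.
-/

namespace Pool.Agent.Results.MP_24418a_co.AdditivePeriodicity

/-- A position: the four heap sizes. -/
abbrev Pos := Fin 4 → ℕ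

/-- The game is over when at most one of the four heaps is nonempty. -/
def Over (s : Pos) : Prop := (Finset.univ.filter (fun i => s i ≠ 0)).card ≤ 1

/-- A move: the game is not over, and one heap is made strictly smaller. -/
def Move (s t : Pos) : Prop := ¬ Over s ∧ ∃ i : Fin 4, ∃ n < s i, t = Function.update s i n

theorem move_sum {s t : Pos} (h : Move s t) : ∑ i, t i < ∑ i, s i := by
  obtain ⟨-, i, n, hn, rfl⟩ := h
  apply Finset.sum_lt_sum
  · intro j _
    by_cases hj : j = i
    · subst hj; simp; omega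
    · simp [Function.update_of_ne hj]
  · exact ⟨i, Finset.mem_univ _, by simpa using hn⟩

/-- `P`-positions under normal play: no move leads to a `P`-position (so the positions
in which the game is over are `P`-positions). -/
def PPos (s : Pos) : Prop := ∀ t, Move s t → ¬ PPos t
termination_by ∑ i, s i
decreasing_by exact move_sum (by assumption)

theorem pPos_iff (s : Pos) : PPos s ↔ ∀ t, Move s t → ¬ PPos t := by
  rw [PPos]

/-- The outcome in terms of the four sizes. -/
def R (a b c d : ℕ) : Prop := PPos ![a, b, c, d]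

theorem over_iff (a b c d : ℕ) : Over ![a, b, c, d] ↔
    (a = 0 ∧ b = 0 ∧ c = 0) ∨ (a = 0 ∧ b = 0 ∧ d = 0) ∨ (a = 0 ∧ c = 0 ∧ d = 0) ∨
      (b = 0 ∧ c = 0 ∧ d = 0) := by
  unfold Over
  rw [Finset.card_filter]
  rw [Fin.sum_univ_four]
  simp only [Matrix.cons_val_zero, Matrix.cons_val_one, Matrix.cons_val]
  by_cases ha : a = 0 <;> by_cases hb : b = 0 <;> by_cases hc : c = 0 <;>
    by_cases hd : d = 0 <;> simp [ha, hb, hc, hd]

theorem R_iff (a b c d : ℕ) : R a b c d ↔ (Over ![a, b, c, d] ∨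
    ((∀ a' < a, ¬ R a' b c d) ∧ (∀ b' < b, ¬ R a b' c d) ∧ (∀ c' < c, ¬ R a b c' d) ∧
      (∀ d' < d, ¬ R a b c d'))) := by
  have u0 : ∀ n, Function.update ![a, b, c, d] 0 n = ![n, b, c, d] := by
    intro n; ext j; fin_cases j <;> simp
  have u1 : ∀ n, Function.update ![a, b, c, d] 1 n = ![a, n, c, d] := by
    intro n; ext j; fin_cases j <;> simp
  have u2 : ∀ n, Function.update ![a, b, c, d] 2 n = ![a, b, n, d] := by
    intro n; ext j; fin_cases j <;> simp
  have u3 : ∀ n, Function.update ![a, b, c, d] 3 n = ![a, b, c, n] := by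
    intro n; ext j; fin_cases j <;> simp
  unfold R
  rw [pPos_iff]
  constructor
  · intro h
    by_cases ho : Over ![a, b, c, d]
    · exact Or.inl ho
    · right
      refine ⟨?_, ?_, ?_, ?_⟩
      · intro n hn; rw [← u0]; exact h _ ⟨ho, 0, n, by simpa using hn, rfl⟩
      · intro n hn; rw [← u1]; exact h _ ⟨ho, 1, n, by simpa using hn, rfl⟩
      · intro n hn; rw [← u2]; exact h _ ⟨ho, 2, n, by simpa using hn, rfl⟩
      · intro n hn; rw [← u3]; exact h _ ⟨ho, 3, n, by simpa using hn, rfl⟩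
  · rintro (ho | ⟨h0, h1, h2, h3⟩) t ⟨hno, i, n, hn, rfl⟩
    · exact absurd ho hno
    · fin_cases i
      · simp only [Fin.zero_eta] ; rw [u0]; exact h0 n (by simpa using hn)
      · simp only [Fin.mk_one] ; rw [u1]; exact h1 n (by simpa using hn)
      · simp only [Fin.reduceFinMk] ; rw [u2]; exact h2 n (by simpa using hn)
      · simp only [Fin.reduceFinMk] ; rw [u3]; exact h3 n (by simpa using hn)

theorem R_symm_aux : ∀ (k a b c d : ℕ), a + b + c + d < k → (R a b c d ↔ R a b d c) := by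
  intro k
  induction k with
  | zero => intro a b c d h; omega
  | succ k ih =>
    intro a b c d h
    rw [R_iff a b c d, R_iff a b d c, over_iff, over_iff]
    have h1 : (∀ a' < a, ¬ R a' b c d) ↔ (∀ a' < a, ¬ R a' b d c) :=
      forall₂_congr (fun a' ha' => not_congr (ih a' b c d (by omega)))
    have h2 : (∀ b' < b, ¬ R a b' c d) ↔ (∀ b' < b, ¬ R a b' d c) :=
      forall₂_congr (fun b' hb' => not_congr (ih a b' c d (by omega)))
    have h3 : (∀ c' < c, ¬ R a b c' d) ↔ (∀ c' < c, ¬ R a b d c') :=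
      forall₂_congr (fun c' hc' => not_congr (ih a b c' d (by omega)))
    have h4 : (∀ d' < d, ¬ R a b c d') ↔ (∀ d' < d, ¬ R a b d' c) :=
      forall₂_congr (fun d' hd' => not_congr (ih a b c d' (by omega)))
    rw [h1, h2, h3, h4]
    tauto

theorem R_symm (a b c d : ℕ) : R a b c d ↔ R a b d c :=
  R_symm_aux (a + b + c + d + 1) a b c d (by omega)

theorem uniq {a b c d₁ d₂ : ℕ} (h0 : ¬ (a = 0 ∧ b = 0 ∧ c = 0)) (h₁ : R a b c d₁)
    (h₂ : R a b c d₂) : d₁ = d₂ := by
  have key : ∀ {x y : ℕ}, x < y → R a b c x → R a b c y → False := by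
    intro x y hxy hx hy
    rw [R_iff, over_iff] at hy
    rcases hy with ho | ⟨-, -, -, h⟩
    · omega
    · exact h x hxy hx
  rcases lt_trichotomy d₁ d₂ with h | h | h
  · exact (key h h₁ h₂).elim
  · exact h
  · exact (key h h₂ h₁).elim

open Classical in
/-- The fourth size (0 if there is none). -/
noncomputable def F (a b c : ℕ) : ℕ := if h : ∃ d, R a b c d then h.choose else 0

theorem F_eq {a b c d : ℕ} (h0 : ¬ (a = 0 ∧ b = 0 ∧ c = 0)) (h : R a b c d) : F a b c = d := by
  have hex : ∃ d, R a b c d := ⟨d, h⟩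
  unfold F
  rw [dif_pos hex]
  exact uniq h0 hex.choose_spec h

/-- If all `d' < n` are answered by moves in the first three heaps, `n ≤ a + b + c`. -/
theorem count {a b c n : ℕ} (hab : ¬ (b = 0 ∧ c = 0)) (hac : ¬ (a = 0 ∧ c = 0))
    (hbc : ¬ (a = 0 ∧ b = 0))
    (h : ∀ d < n, (∃ a' < a, R a' b c d) ∨ (∃ b' < b, R a b' c d) ∨ (∃ c' < c, R a b c' d)) :
    n ≤ a + b + c := by
  classical
  have hsub : Finset.range n ⊆ ((Finset.range a).image (fun a' => F a' b c) ∪
      (Finset.range b).image (fun b' => F a b' c)) ∪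
      (Finset.range c).image (fun c' => F a b c') := by
    intro d hd
    rw [Finset.mem_range] at hd
    simp only [Finset.mem_union, Finset.mem_image, Finset.mem_range]
    rcases h d hd with ⟨x, hx, hr⟩ | ⟨x, hx, hr⟩ | ⟨x, hx, hr⟩
    · exact Or.inl (Or.inl ⟨x, hx, F_eq (by tauto) hr⟩)
    · exact Or.inl (Or.inr ⟨x, hx, F_eq (by tauto) hr⟩)
    · exact Or.inr ⟨x, hx, F_eq (by tauto) hr⟩
  have h1 := Finset.card_le_card hsub
  rw [Finset.card_range] at h1
  refine h1.trans ((Finset.card_union_le _ _).trans ?_)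
  have h2 := Finset.card_union_le ((Finset.range a).image (fun a' => F a' b c))
    ((Finset.range b).image (fun b' => F a b' c))
  have h3 : ((Finset.range a).image (fun a' => F a' b c)).card ≤ a := by
    simpa using Finset.card_image_le (s := Finset.range a) (f := fun a' => F a' b c)
  have h4 : ((Finset.range b).image (fun b' => F a b' c)).card ≤ b := by
    simpa using Finset.card_image_le (s := Finset.range b) (f := fun b' => F a b' c)
  have h5 : ((Finset.range c).image (fun c' => F a b c')).card ≤ c := by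
    simpa using Finset.card_image_le (s := Finset.range c) (f := fun c' => F a b c')
  omega

theorem bound_d {a b c d : ℕ} (h0 : ¬ (a = 0 ∧ b = 0)) (hr : R a b c d) : d ≤ a + b + c := by
  by_contra hlt
  push Not at hlt
  have hr' := hr
  rw [R_iff, over_iff] at hr'
  rcases hr' with ho | ⟨-, -, -, h4⟩
  · omega
  · by_cases hz : (b = 0 ∧ c = 0) ∨ (a = 0 ∧ c = 0)
    · -- only two heaps are nonempty
      have hov : R a b c 0 := by
        rw [R_iff, over_iff]; left; omega
      exact h4 0 (by omega) hov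
    · have := count (a := a) (b := b) (c := c) (n := d) (by tauto) (by tauto) h0 (by
        intro d' hd'
        by_contra hcon
        push Not at hcon
        apply h4 d' hd'
        rw [R_iff]
        right
        exact ⟨fun x hx => hcon.1 x hx, fun x hx => hcon.2.1 x hx, fun x hx => hcon.2.2 x hx,
          fun x hx => h4 x (by omega)⟩)
      omega

theorem bound_c {a b c d : ℕ} (h0 : ¬ (a = 0 ∧ b = 0)) (hr : R a b c d) : c ≤ a + b + d :=
  bound_d h0 ((R_symm a b c d).1 hr)

theorem exists_d (a b c : ℕ) : ∃ d ≤ a + b + c, R a b c d := by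
  by_contra hcon
  push Not at hcon
  have h0 := hcon 0 (by omega)
  rw [R_iff, over_iff] at h0
  push Not at h0
  have := count (a := a) (b := b) (c := c) (n := a + b + c + 1) (by
      intro h; have := h0.1; tauto) (by intro h; have := h0.1; tauto)
      (by intro h; have := h0.1; tauto) (by
    intro d hd
    by_contra hc2
    push Not at hc2
    apply hcon d (by omega)
    rw [R_iff]
    right
    exact ⟨fun x hx => hc2.1 x hx, fun x hx => hc2.2.1 x hx, fun x hx => hc2.2.2 x hx,
      fun x hx => hcon x (by omega)⟩)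
  omega

theorem R00 {c d : ℕ} (hc : 1 ≤ c) (hd : 1 ≤ d) : ¬ R 0 0 c d := by
  rw [R_iff, over_iff]
  push Not
  refine ⟨by omega, fun _ _ _ => ?_⟩
  exact ⟨0, by omega, by rw [R_iff, over_iff]; left; omega⟩

/-- Used values. -/
def U (a b c d : ℕ) : Prop := ∃ c' < c, R a b c' d

/-- The windows at `c₁` and `c₂` agree. -/
def Agree (m c₁ c₂ : ℕ) : Prop := ∀ a ≤ m, ∀ b ≤ m, ¬ (a = 0 ∧ b = 0) → ∀ e ≤ 4 * m,
  (U a b c₁ (c₁ + e - 2 * m) ↔ U a b c₂ (c₂ + e - 2 * m))

theorem row_eq {m c₁ c₂ : ℕ} (h₁ : 2 * m + 1 ≤ c₁) (h₂ : 2 * m + 1 ≤ c₂) (H : Agree m c₁ c₂) :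
    ∀ (k a b e : ℕ), a + b + e < k → a ≤ m → b ≤ m → ¬ (a = 0 ∧ b = 0) → e ≤ 4 * m →
      (R a b c₁ (c₁ + e - 2 * m) ↔ R a b c₂ (c₂ + e - 2 * m)) := by
  intro k
  induction k with
  | zero => intro a b e h; omega
  | succ k ih =>
    intro a b e hk ha hb hab he
    rw [R_iff a b c₁, R_iff a b c₂, over_iff, over_iff]
    have g1 : (∀ a' < a, ¬ R a' b c₁ (c₁ + e - 2 * m)) ↔
        (∀ a' < a, ¬ R a' b c₂ (c₂ + e - 2 * m)) := by
      refine forall₂_congr (fun a' ha' => not_congr ?_)
      by_cases h0 : a' = 0 ∧ b = 0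
      · obtain ⟨rfl, rfl⟩ := h0
        exact ⟨fun h => absurd h (R00 (by omega) (by omega)),
          fun h => absurd h (R00 (by omega) (by omega))⟩
      · exact ih a' b e (by omega) (by omega) hb h0 he
    have g2 : (∀ b' < b, ¬ R a b' c₁ (c₁ + e - 2 * m)) ↔
        (∀ b' < b, ¬ R a b' c₂ (c₂ + e - 2 * m)) := by
      refine forall₂_congr (fun b' hb' => not_congr ?_)
      by_cases h0 : a = 0 ∧ b' = 0
      · obtain ⟨rfl, rfl⟩ := h0
        exact ⟨fun h => absurd h (R00 (by omega) (by omega)),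
          fun h => absurd h (R00 (by omega) (by omega))⟩
      · exact ih a b' e (by omega) ha (by omega) h0 he
    have g3 : (∀ c' < c₁, ¬ R a b c' (c₁ + e - 2 * m)) ↔
        (∀ c' < c₂, ¬ R a b c' (c₂ + e - 2 * m)) := by
      have := H a ha b hb hab e he
      unfold U at this
      constructor
      · intro h x hx hr
        obtain ⟨y, hy, hr'⟩ := this.2 ⟨x, hx, hr⟩
        exact h y hy hr'
      · intro h x hx hr
        obtain ⟨y, hy, hr'⟩ := this.1 ⟨x, hx, hr⟩
        exact h y hy hr'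
    have g4 : (∀ d' < c₁ + e - 2 * m, ¬ R a b c₁ d') ↔ (∀ d' < c₂ + e - 2 * m, ¬ R a b c₂ d') := by
      constructor
      · intro h x hx hr
        have hb1 := bound_c hab hr
        have h3 := (ih a b (x + 2 * m - c₂) (by omega) ha hb hab (by omega)).2
          (by rwa [show c₂ + (x + 2 * m - c₂) - 2 * m = x by omega])
        exact h _ (by omega) h3
      · intro h x hx hr
        have hb1 := bound_c hab hr
        have h3 := (ih a b (x + 2 * m - c₁) (by omega) ha hb hab (by omega)).1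
          (by rwa [show c₁ + (x + 2 * m - c₁) - 2 * m = x by omega])
        exact h _ (by omega) h3
    rw [g1, g2, g3, g4]
    constructor
    · rintro (h | h)
      · omega
      · exact Or.inr h
    · rintro (h | h)
      · omega
      · exact Or.inr h

theorem U_succ (a b c d : ℕ) : U a b (c + 1) d ↔ U a b c d ∨ R a b c d := by
  unfold U
  constructor
  · rintro ⟨x, hx, hr⟩
    rcases Nat.lt_succ_iff_lt_or_eq.1 hx with h | h
    · exact Or.inl ⟨x, h, hr⟩
    · subst h; exact Or.inr hr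
  · rintro (⟨x, hx, hr⟩ | hr)
    · exact ⟨x, by omega, hr⟩
    · exact ⟨c, by omega, hr⟩

theorem agree_succ {m c₁ c₂ : ℕ} (h₁ : 2 * m + 1 ≤ c₁) (h₂ : 2 * m + 1 ≤ c₂)
    (H : Agree m c₁ c₂) : Agree m (c₁ + 1) (c₂ + 1) := by
  intro a ha b hb hab e he
  rw [U_succ, U_succ]
  by_cases he' : e = 4 * m
  · subst he'
    constructor
    · rintro (⟨x, hx, hr⟩ | hr)
      · have := bound_d hab hr; omega
      · have := bound_d hab hr; omega
    · rintro (⟨x, hx, hr⟩ | hr)
      · have := bound_d hab hr; omega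
      · have := bound_d hab hr; omega
  · have e1 : c₁ + 1 + e - 2 * m = c₁ + (e + 1) - 2 * m := by omega
    have e2 : c₂ + 1 + e - 2 * m = c₂ + (e + 1) - 2 * m := by omega
    rw [e1, e2, H a ha b hb hab (e + 1) (by omega),
      row_eq h₁ h₂ H (a + b + (e + 1) + 1) a b (e + 1) (by omega) ha hb hab (by omega)]

theorem agree_add {m c₁ c₂ : ℕ} (h₁ : 2 * m + 1 ≤ c₁) (h₂ : 2 * m + 1 ≤ c₂)
    (H : Agree m c₁ c₂) (n : ℕ) : Agree m (c₁ + n) (c₂ + n) := by
  induction n with
  | zero => exact H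
  | succ n ih =>
    exact agree_succ (le_trans h₁ (Nat.le_add_right _ _)) (le_trans h₂ (Nat.le_add_right _ _)) ih

theorem exists_agree (m : ℕ) : ∃ c₁ c₂ : ℕ, 2 * m + 1 ≤ c₁ ∧ c₁ < c₂ ∧
    c₂ ≤ 2 * m + 1 + 2 ^ ((m + 1) * ((m + 1) * (4 * m + 1))) ∧ Agree m c₁ c₂ := by
  classical
  set K := 2 ^ ((m + 1) * ((m + 1) * (4 * m + 1))) with hK
  let σ : Fin (K + 1) → Finset (Fin (m + 1) × Fin (m + 1) × Fin (4 * m + 1)) := fun i =>
    Finset.univ.filter (fun t => U t.1 t.2.1 (2 * m + 1 + i) (2 * m + 1 + i + t.2.2 - 2 * m))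
  have hcard : Fintype.card (Finset (Fin (m + 1) × Fin (m + 1) × Fin (4 * m + 1))) = K := by
    rw [Fintype.card_finset, Fintype.card_prod, Fintype.card_prod, Fintype.card_fin,
      Fintype.card_fin]
  obtain ⟨i, j, hij, hσ⟩ := Fintype.exists_ne_map_eq_of_card_lt σ (by
    rw [hcard, Fintype.card_fin]; omega)
  have key : ∀ i j : Fin (K + 1), σ i = σ j → Agree m (2 * m + 1 + i) (2 * m + 1 + j) := by
    intro i j h a ha b hb _ e he
    have h1 := Finset.ext_iff.1 h (⟨a, by omega⟩, ⟨b, by omega⟩, ⟨e, by omega⟩)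
    simpa [σ] using h1
  have hi := i.isLt
  have hj := j.isLt
  rcases lt_or_gt_of_ne (fun h => hij (Fin.ext h) : (i : ℕ) ≠ (j : ℕ)) with h | h
  · exact ⟨2 * m + 1 + i, 2 * m + 1 + j, by omega, by omega, by omega, key i j hσ⟩
  · exact ⟨2 * m + 1 + j, 2 * m + 1 + i, by omega, by omega, by omega, key j i hσ.symm⟩

/-- Additive periodicity with one period and one threshold for all pairs of sizes `≤ m`. -/
theorem periodic (m : ℕ) : ∃ p N : ℕ, 0 < p ∧
    N + p ≤ 2 * m + 1 + 2 ^ ((m + 1) * ((m + 1) * (4 * m + 1))) ∧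
    ∀ a ≤ m, ∀ b ≤ m, ¬ (a = 0 ∧ b = 0) → ∀ c, N ≤ c → ∀ d,
      (R a b c d ↔ R a b (c + p) (d + p)) := by
  obtain ⟨c₁, c₂, h1, h2, h3, H⟩ := exists_agree m
  refine ⟨c₂ - c₁, c₁, by omega, by omega, ?_⟩
  intro a ha b hb hab c hc d
  have H' := agree_add h1 (by omega) H (c - c₁)
  rw [show c₁ + (c - c₁) = c by omega, show c₂ + (c - c₁) = c + (c₂ - c₁) by omega] at H'
  by_cases hd : c ≤ d + 2 * m ∧ d ≤ c + 2 * m
  · have := row_eq (by omega) (by omega) H' (a + b + (d + 2 * m - c) + 1) a b (d + 2 * m - c)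
      (by omega) ha hb hab (by omega)
    rw [show c + (d + 2 * m - c) - 2 * m = d by omega,
      show c + (c₂ - c₁) + (d + 2 * m - c) - 2 * m = d + (c₂ - c₁) by omega] at this
    exact this
  · constructor
    · intro h
      have g1 := bound_d hab h
      have g2 := bound_c hab h
      omega
    · intro h
      have g1 := bound_d hab h
      have g2 := bound_c hab h
      omega

theorem F_spec (a b c : ℕ) : R a b c (F a b c) := by
  have h : ∃ d, R a b c d := by
    obtain ⟨d, -, hd⟩ := exists_d a b c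
    exact ⟨d, hd⟩
  unfold F
  rw [dif_pos h]
  exact h.choose_spec

theorem result (m : ℕ) : ∃ p N : ℕ, 0 < p ∧
    N + p ≤ 2 * m + 1 + 2 ^ ((m + 1) * ((m + 1) * (4 * m + 1))) ∧
    ∀ a b : ℕ, 1 ≤ a → a ≤ m → 1 ≤ b → b ≤ m → ∃ f : ℕ → ℕ,
      (∀ c d : ℕ, PPos ![a, b, c, d] ↔ d = f c) ∧
      (∀ c, f c ≤ c + (a + b) ∧ c ≤ f c + (a + b)) ∧
      ∀ c, N ≤ c → f (c + p) = f c + p := by
  obtain ⟨p, N, hp, hb, H⟩ := periodic m
  refine ⟨p, N, hp, hb, ?_⟩
  intro a b ha1 ha hb1 hb2
  have hab : ¬ (a = 0 ∧ b = 0) := by omega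
  have habc : ∀ c, ¬ (a = 0 ∧ b = 0 ∧ c = 0) := by intro c; omega
  refine ⟨F a b, ?_, ?_, ?_⟩
  · intro c d
    constructor
    · intro h
      exact (F_eq (habc c) h).symm
    · rintro rfl
      exact F_spec a b c
  · intro c
    have g1 := bound_d hab (F_spec a b c)
    have g2 := bound_c hab (F_spec a b c)
    omega
  · intro c hc
    exact F_eq (habc _) ((H a ha b hb2 hab c hc _).1 (F_spec a b c))

end Pool.Agent.Results.MP_24418a_co.AdditivePeriodicity
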